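import Mathlib

/-! Exponential sums over vertical arithmetic progressions: the block estimate. -/

set_option autoImplicit false

open Finset

namespace Pool.Agent.H345R2.AP

/-- `|∑_{k=1}^K n^{-iαk}|` -/
noncomputable def DD (α : ℝ) (K n : ℕ) : ℝ :=
  ‖∑ k ∈ Icc 1 K, Complex.exp (-(Complex.I * ((α * k * Real.log n : ℝ) : ℂ)))‖

lemma DD_nonneg (α : ℝ) (K n : ℕ) : 0 ≤ DD α K n := norm_nonneg _

lemma norm_term (x : ℝ) : ‖Complex.exp (-(Complex.I * (x : ℂ)))‖ = 1 := by
  have : -(Complex.I * (x : ℂ)) = ((-x : ℝ) : ℂ) * Complex.I := by push_cast; ring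
  rw [this, Complex.norm_exp_ofReal_mul_I]

lemma DD_le_K (α : ℝ) (K n : ℕ) : DD α K n ≤ K := by
  unfold DD
  refine (norm_sum_le _ _).trans ?_
  simp only [norm_term]
  simp

lemma DD_le (α : ℝ) (K n : ℕ) (m : ℤ)
    (h0 : 0 < |α * Real.log n / (2 * Real.pi) - m|)
    (h1 : |α * Real.log n / (2 * Real.pi) - m| ≤ 1 / 2) :
    DD α K n ≤ 1 / (2 * |α * Real.log n / (2 * Real.pi) - m|) := by
  set g := α * Real.log n / (2 * Real.pi) with hg
  set d := |g - m| with hd
  set z : ℂ := Complex.exp (-(Complex.I * ((α * Real.log n : ℝ) : ℂ))) with hz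
  have hzk : ∀ k : ℕ, Complex.exp (-(Complex.I * ((α * k * Real.log n : ℝ) : ℂ))) = z ^ k := by
    intro k
    rw [hz, ← Complex.exp_nat_mul]
    congr 1
    push_cast
    ring
  have hznorm : ‖z‖ = 1 := norm_term _
  have hsum : (1 - z) * ∑ k ∈ Icc 1 K, z ^ k = z - z ^ (K + 1) := by
    induction K with
    | zero => simp
    | succ K ih =>
      rw [Finset.sum_Icc_succ_top (by omega), mul_add, ih]
      ring
  have hle : ‖1 - z‖ * DD α K n ≤ 2 := by
    unfold DD
    simp only [hzk]
    rw [← norm_mul, hsum]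
    refine (norm_sub_le _ _).trans ?_
    rw [norm_pow, hznorm]
    norm_num
  have hlow : 4 * d ≤ ‖1 - z‖ := by
    have e1 : ‖1 - z‖ = ‖(2 * Real.sin ((-(α * Real.log n)) / 2) : ℝ)‖ := by
      rw [← Complex.norm_exp_I_mul_ofReal_sub_one, norm_sub_rev, hz]
      congr 3
      push_cast
      ring
    have e2 : (-(α * Real.log n)) / 2 = -(Real.pi * (g - m)) - m * Real.pi := by
      rw [hg]; field_simp; ring
    rw [e1, e2, Real.norm_eq_abs, abs_mul, abs_two]
    have e3 : |Real.sin (-(Real.pi * (g - m)) - m * Real.pi)| = |Real.sin (Real.pi * (g - m))| := by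
      rw [Real.sin_sub_int_mul_pi, abs_mul, abs_zpow, abs_neg, abs_one, one_zpow, one_mul,
        Real.sin_neg, abs_neg]
    rw [e3]
    have e4 : |Real.sin (Real.pi * (g - m))| = Real.sin (Real.pi * d) := by
      rcases le_total 0 (g - m) with h | h
      · rw [hd, abs_of_nonneg h, abs_of_nonneg]
        apply Real.sin_nonneg_of_nonneg_of_le_pi (by positivity)
        have : g - m ≤ 1 / 2 := by rw [← abs_of_nonneg h]; exact h1
        nlinarith [Real.pi_pos]
      · rw [hd, abs_of_nonpos h, mul_neg, Real.sin_neg]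
        rw [abs_of_nonpos]
        have h2 : -(g - m) ≤ 1 / 2 := by rw [← abs_of_nonpos h]; exact h1
        have h3 : 0 ≤ Real.sin (Real.pi * (-(g - m))) := by
          apply Real.sin_nonneg_of_nonneg_of_le_pi
          · exact mul_nonneg Real.pi_pos.le (by linarith)
          · nlinarith [Real.pi_pos]
        rw [mul_neg, Real.sin_neg] at h3
        linarith
    rw [e4]
    have h5 := Real.mul_le_sin (x := Real.pi * d) (by positivity)
      (by nlinarith [Real.pi_pos])
    have h6 : 2 / Real.pi * (Real.pi * d) = 2 * d := by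
      field_simp
    linarith
  have hD := DD_nonneg α K n
  rw [le_div_iff₀ (by positivity)]
  nlinarith

/-- the sum of `1/|n - n₀|` over a set of naturals within distance `M` of `n₀` -/
lemma recip_sum (S : Finset ℕ) (n0 M : ℕ) (h : ∀ n ∈ S, n ≤ n0 + M ∧ n0 ≤ n + M) :
    ∑ n ∈ S.erase n0, 1 / |(n : ℝ) - n0| ≤ 2 * ∑ j ∈ Icc 1 M, 1 / (j : ℝ) := by
  classical
  have hsplit : ∑ n ∈ S.erase n0, 1 / |(n : ℝ) - n0| =
      ∑ n ∈ (S.erase n0).filter (fun n => n < n0), 1 / |(n : ℝ) - n0| +
      ∑ n ∈ (S.erase n0).filter (fun n => ¬ n < n0), 1 / |(n : ℝ) - n0| :=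
    (Finset.sum_filter_add_sum_filter_not _ _ _).symm
  have h1 : ∑ n ∈ (S.erase n0).filter (fun n => n < n0), 1 / |(n : ℝ) - n0| ≤
      ∑ j ∈ Icc 1 M, 1 / (j : ℝ) := by
    have e : ∑ n ∈ (S.erase n0).filter (fun n => n < n0), 1 / |(n : ℝ) - n0| =
        ∑ j ∈ ((S.erase n0).filter (fun n => n < n0)).image (fun n => n0 - n), 1 / (j : ℝ) := by
      rw [Finset.sum_image]
      · refine Finset.sum_congr rfl fun n hn => ?_
        have hlt := (mem_filter.mp hn).2
        rw [Nat.cast_sub hlt.le, abs_of_neg (by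
          have : (n : ℝ) < n0 := by exact_mod_cast hlt
          linarith)]
        ring
      · intro a ha b hb hab
        have h1 := (mem_filter.mp ha).2
        have h2 := (mem_filter.mp hb).2
        simp only at hab
        omega
    rw [e]
    apply Finset.sum_le_sum_of_subset_of_nonneg
    · intro j hj
      obtain ⟨n, hn, rfl⟩ := mem_image.mp hj
      have hlt := (mem_filter.mp hn).2
      have hS := mem_of_mem_erase (mem_filter.mp hn).1
      have := h n hS
      rw [mem_Icc]; omega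
    · intros; positivity
  have h2 : ∑ n ∈ (S.erase n0).filter (fun n => ¬ n < n0), 1 / |(n : ℝ) - n0| ≤
      ∑ j ∈ Icc 1 M, 1 / (j : ℝ) := by
    have e : ∑ n ∈ (S.erase n0).filter (fun n => ¬ n < n0), 1 / |(n : ℝ) - n0| =
        ∑ j ∈ ((S.erase n0).filter (fun n => ¬ n < n0)).image (fun n => n - n0), 1 / (j : ℝ) := by
      rw [Finset.sum_image]
      · refine Finset.sum_congr rfl fun n hn => ?_
        have hlt := (mem_filter.mp hn).2
        rw [Nat.cast_sub (by omega), abs_of_nonneg (by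
          have : (n0 : ℝ) ≤ n := by exact_mod_cast (by omega : n0 ≤ n)
          linarith)]
      · intro a ha b hb hab
        have h1 := (mem_filter.mp ha).2
        have h2 := (mem_filter.mp hb).2
        simp only at hab
        omega
    rw [e]
    apply Finset.sum_le_sum_of_subset_of_nonneg
    · intro j hj
      obtain ⟨n, hn, rfl⟩ := mem_image.mp hj
      have hlt := (mem_filter.mp hn).2
      have hne := ne_of_mem_erase (mem_filter.mp hn).1
      have hS := mem_of_mem_erase (mem_filter.mp hn).1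
      have := h n hS
      rw [mem_Icc]; omega
    · intros; positivity
  rw [hsplit]
  linarith

lemma recip_log (i : ℕ) : ∑ j ∈ Icc (1 : ℕ) (2 ^ i : ℕ), 1 / ((j : ℕ) : ℝ) ≤ 1 + i := by
  have h := harmonic_le_one_add_log (2 ^ i)
  have e : ((harmonic (2 ^ i) : ℚ) : ℝ) =
      ∑ j ∈ Icc (1 : ℕ) (2 ^ i : ℕ), 1 / ((j : ℕ) : ℝ) := by
    rw [harmonic_eq_sum_Icc]
    push_cast
    refine Finset.sum_congr rfl fun j _ => by rw [one_div]
  rw [← e]
  refine h.trans ?_
  push_cast
  rw [Real.log_pow]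
  have := Real.log_two_lt_d9
  have h2 : (0 : ℝ) ≤ i := by positivity
  nlinarith

/-- the block estimate -/
theorem block (α : ℝ) (hα : 0 < α) (K i : ℕ) :
    ∑ n ∈ Ico (2 ^ i) (2 ^ (i + 1)), DD α K n ≤
      (α + 2) * (K + 32 * (1 + i) * 2 ^ i / α) := by
  classical
  set M : ℕ := 2 ^ i with hM
  have hM0 : 0 < M := by positivity
  have h2M : 2 ^ (i + 1) = 2 * M := by rw [hM]; ring
  rw [h2M]
  have hpi := Real.pi_pos
  have hpi4 : Real.pi < 4 := by linarith [Real.pi_lt_d2]
  set g : ℕ → ℝ := fun n => α * Real.log n / (2 * Real.pi) with hg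
  have hgap : ∀ n n' : ℕ, 0 < n → n ≤ n' → n' ≤ 2 * M →
      α / (4 * Real.pi * M) * ((n' : ℝ) - n) ≤ g n' - g n := by
    intro n n' hn hnn hn'
    have hn0 : (0 : ℝ) < n := by exact_mod_cast hn
    have hnn' : (n : ℝ) ≤ n' := by exact_mod_cast hnn
    have hn'0 : (0 : ℝ) < n' := by linarith
    have hn'M : (n' : ℝ) ≤ 2 * M := by exact_mod_cast hn'
    have h1 : 1 - ((n' : ℝ) / n)⁻¹ ≤ Real.log ((n' : ℝ) / n) :=
      Real.one_sub_inv_le_log_of_pos (by positivity)
    rw [Real.log_div hn'0.ne' hn0.ne', inv_div] at h1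
    have h2 : ((n' : ℝ) - n) / (2 * M) ≤ 1 - (n : ℝ) / n' := by
      have : 1 - (n : ℝ) / n' = ((n' : ℝ) - n) / n' := by field_simp
      rw [this]
      exact div_le_div_of_nonneg_left (by linarith) hn'0 hn'M
    have h3 : ((n' : ℝ) - n) / (2 * M) ≤ Real.log n' - Real.log n := h2.trans h1
    have h4 : g n' - g n = α / (2 * Real.pi) * (Real.log n' - Real.log n) := by
      simp only [hg]; ring
    rw [h4]
    have h5 : α / (4 * Real.pi * M) * ((n' : ℝ) - n) =
        α / (2 * Real.pi) * (((n' : ℝ) - n) / (2 * M)) := by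
      field_simp; ring
    rw [h5]
    exact mul_le_mul_of_nonneg_left h3 (by positivity)
  have hM0' : (0 : ℝ) < M := by exact_mod_cast hM0
  set δ : ℝ := α / (4 * Real.pi * M) with hδ
  have hδ0 : 0 < δ := by positivity
  set r : ℕ → ℤ := fun n => ⌊g n + 1 / 2⌋ with hr
  set R : Finset ℤ := Icc ⌊g M + 1 / 2⌋ ⌊g (2 * M) + 1 / 2⌋ with hR
  have hmaps : ∀ n ∈ Ico M (2 * M), r n ∈ R := by
    intro n hn
    obtain ⟨h1, h2⟩ := mem_Ico.mp hn
    have hM1 : 0 < M := hM0
    rw [hR, mem_Icc]
    constructor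
    · apply Int.floor_mono
      have := hgap M n hM1 h1 h2.le
      have h3 : (M : ℝ) ≤ n := by exact_mod_cast h1
      have h4 : 0 ≤ δ * ((n : ℝ) - M) := mul_nonneg hδ0.le (by linarith)
      linarith
    · apply Int.floor_mono
      have := hgap n (2 * M) (by omega) h2.le le_rfl
      have h3 : (n : ℝ) ≤ 2 * M := by exact_mod_cast h2.le
      push_cast at this
      have h4 : 0 ≤ δ * (2 * (M : ℝ) - n) := mul_nonneg hδ0.le (by linarith)
      linarith
  rw [← Finset.sum_fiberwise_of_maps_to hmaps]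
  have hinner : ∀ m ∈ R, ∑ n ∈ (Ico M (2 * M)).filter (fun n => r n = m), DD α K n ≤
      K + 32 * (1 + i) * 2 ^ i / α := by
    intro m _
    set S := (Ico M (2 * M)).filter (fun n => r n = m) with hS
    rcases S.eq_empty_or_nonempty with he | hne
    · rw [he, Finset.sum_empty]; positivity
    · obtain ⟨n0, hn0, hmin⟩ := Finset.exists_min_image S (fun n => |g n - m|) hne
      have hd : ∀ n ∈ S, |g n - m| ≤ 1 / 2 := by
        intro n hn
        have h1 : r n = m := (mem_filter.mp hn).2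
        have h2 := Int.floor_le (g n + 1 / 2)
        have h3 := Int.lt_floor_add_one (g n + 1 / 2)
        have h4 : (⌊g n + 1 / 2⌋ : ℝ) = m := by exact_mod_cast h1
        rw [h4] at h2 h3
        rw [abs_le]
        constructor <;> linarith
      have hsep : ∀ n ∈ S, n ≠ n0 → δ * |(n : ℝ) - n0| ≤ 2 * |g n - m| := by
        intro n hn hne
        have hb := (mem_filter.mp hn).1
        have hb0 := (mem_filter.mp hn0).1
        obtain ⟨h1, h2⟩ := mem_Ico.mp hb
        obtain ⟨h3, h4⟩ := mem_Ico.mp hb0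
        have h5 : δ * |(n : ℝ) - n0| ≤ |g n - g n0| := by
          rcases le_total n0 n with hle | hle
          · have := hgap n0 n (by omega) hle h2.le
            have h6 : (n0 : ℝ) ≤ n := by exact_mod_cast hle
            rw [abs_of_nonneg (by linarith)]
            exact this.trans (le_abs_self _)
          · have := hgap n n0 (by omega) hle h4.le
            have h6 : (n : ℝ) ≤ n0 := by exact_mod_cast hle
            rw [abs_of_nonpos (by linarith), abs_sub_comm]
            refine le_trans (le_of_eq ?_) (this.trans (le_abs_self _))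
            ring
        have h6 : |g n - g n0| ≤ |g n - m| + |g n0 - m| := by
          have : g n - g n0 = (g n - m) - (g n0 - m) := by ring
          rw [this]; exact abs_sub _ _
        have h7 := hmin n hn
        linarith
      rw [← Finset.add_sum_erase S _ hn0]
      have h1 : DD α K n0 ≤ K := DD_le_K α K n0
      have h2 : ∑ n ∈ S.erase n0, DD α K n ≤ ∑ n ∈ S.erase n0, δ⁻¹ * (1 / |(n : ℝ) - n0|) := by
        refine Finset.sum_le_sum fun n hn => ?_
        have hne : n ≠ n0 := ne_of_mem_erase hn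
        have hnS := mem_of_mem_erase hn
        have hs := hsep n hnS hne
        have hpos : 0 < |(n : ℝ) - n0| := by
          rw [abs_pos, sub_ne_zero]; exact_mod_cast hne
        have hpos2 : 0 < δ * |(n : ℝ) - n0| := mul_pos hδ0 hpos
        have hg0 : 0 < |g n - m| := by linarith
        refine (DD_le α K n m hg0 (hd n hnS)).trans ?_
        rw [← one_div, one_div_mul_one_div]
        exact one_div_le_one_div_of_le hpos2 hs
      rw [← Finset.mul_sum] at h2
      have h3 : ∑ n ∈ S.erase n0, 1 / |(n : ℝ) - n0| ≤ 2 * (1 + i) := by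
        refine (recip_sum S n0 M fun n hn => ?_).trans ?_
        · have hb := mem_Ico.mp (mem_filter.mp hn).1
          have hb0 := mem_Ico.mp (mem_filter.mp hn0).1
          omega
        · have := recip_log i
          rw [← hM] at this
          linarith
      have h4 : δ⁻¹ * ∑ n ∈ S.erase n0, 1 / |(n : ℝ) - n0| ≤ δ⁻¹ * (2 * (1 + i)) :=
        mul_le_mul_of_nonneg_left h3 (by positivity)
      have h5 : δ⁻¹ * (2 * (1 + (i : ℝ))) ≤ 32 * (1 + i) * 2 ^ i / α := by
        rw [hδ, inv_div, div_mul_eq_mul_div]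
        apply div_le_div_of_nonneg_right _ hα.le
        have hMc : (M : ℝ) = 2 ^ i := by rw [hM]; push_cast; rfl
        rw [← hMc]
        have h6 : 0 ≤ (M : ℝ) * (1 + i) := by positivity
        nlinarith
      linarith
  refine (Finset.sum_le_sum hinner).trans ?_
  rw [Finset.sum_const, nsmul_eq_mul]
  apply mul_le_mul_of_nonneg_right _ (by positivity)
  have hlogM : g (2 * M) - g M ≤ α := by
    simp only [hg]
    have h1 : Real.log ((2 * M : ℕ) : ℝ) = Real.log 2 + Real.log M := by
      push_cast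
      rw [Real.log_mul (by norm_num) hM0'.ne']
    rw [h1]
    have h2 : α * (Real.log 2 + Real.log M) / (2 * Real.pi) - α * Real.log M / (2 * Real.pi) =
        α * (Real.log 2 / (2 * Real.pi)) := by ring
    rw [h2]
    have h3 : Real.log 2 / (2 * Real.pi) ≤ 1 := by
      rw [div_le_one (by positivity)]
      have := Real.log_two_lt_d9
      have := Real.pi_gt_three
      linarith
    nlinarith
  rw [hR, Int.card_Icc]
  have h1 := Int.floor_le (g (2 * M) + 1 / 2)
  have h2 := Int.lt_floor_add_one (g M + 1 / 2)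
  have h3 : (⌊g (2 * M) + 1 / 2⌋ : ℝ) + 1 - ⌊g M + 1 / 2⌋ ≤ α + 2 := by
    linarith
  have h4 : ((⌊g (2 * M) + 1 / 2⌋ + 1 - ⌊g M + 1 / 2⌋).toNat : ℝ) ≤ α + 2 := by
    rcases le_total 0 (⌊g (2 * M) + 1 / 2⌋ + 1 - ⌊g M + 1 / 2⌋) with h | h
    · have : (((⌊g (2 * M) + 1 / 2⌋ + 1 - ⌊g M + 1 / 2⌋).toNat : ℤ) : ℝ) =
          (⌊g (2 * M) + 1 / 2⌋ : ℝ) + 1 - ⌊g M + 1 / 2⌋ := by
        rw [Int.toNat_of_nonneg h]; push_cast; ring
      have h5 : ((⌊g (2 * M) + 1 / 2⌋ + 1 - ⌊g M + 1 / 2⌋).toNat : ℝ) =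
          (((⌊g (2 * M) + 1 / 2⌋ + 1 - ⌊g M + 1 / 2⌋).toNat : ℤ) : ℝ) := by norm_cast
      rw [h5, this]; exact h3
    · rw [Int.toNat_of_nonpos h]
      push_cast; linarith
  exact h4

end Pool.Agent.H345R2.AP
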