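import Pool.Agent.H345R2.AP.Main

/-! Zeros of zeta in vertical arithmetic progressions: the final theorems. -/

set_option autoImplicit false

open Finset ArithmeticFunction Filter

namespace Pool.Agent.H345R2.AP

lemma ev_cube (δ : ℝ) (hδ : 0 < δ) :
    ∀ᶠ L : ℝ in atTop, 128 * L ^ 3 * Real.exp (-(δ / 2 * L)) ≤ 1 := by
  have h1 : Tendsto (fun L : ℝ => 128 * (L ^ (3 : ℝ) * Real.exp (-(δ / 2) * L))) atTop (nhds (128 * 0)) :=
    (tendsto_rpow_mul_exp_neg_mul_atTop_nhds_zero 3 (δ / 2) (by positivity)).const_mul 128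
  rw [mul_zero] at h1
  have h2 := h1.eventually_le_const (show (0 : ℝ) < 1 by norm_num)
  filter_upwards [h2, eventually_ge_atTop (0 : ℝ)] with L hL hL0
  have h3 : L ^ (3 : ℝ) = L ^ 3 := by
    rw [← Real.rpow_natCast]; norm_num
  rw [h3] at hL
  have h4 : -(δ / 2 * L) = -(δ / 2) * L := by ring
  rw [h4]
  linarith

lemma ev_window : ∀ᶠ β : ℝ in atTop, Real.log (9 / 10 * β) ≤ 1 / 10 * β := by
  have h1 : Tendsto (fun x : ℝ => Real.log x / x) atTop (nhds 0) := by
    simpa using Real.tendsto_pow_log_div_mul_add_atTop 1 0 1 (by norm_num)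
  have h2 := h1.eventually_le_const (show (0 : ℝ) < 1 / 10 by norm_num)
  filter_upwards [h2, eventually_gt_atTop (0 : ℝ)] with β hβ hβ0
  rw [div_le_iff₀ hβ0] at hβ
  refine le_trans (Real.log_le_log (by positivity) (by linarith)) hβ

theorem short_ap (hRH : SP.RHs) (α : ℝ) (hα : 0 < α) (θ : ℝ) (hθ0 : 0 < θ) (hθ1 : θ ≤ 1)
    (ε : ℝ) (hε : 0 < ε) :
    ∃ H0 : ℝ, ∀ β : ℝ, H0 ≤ β → ∀ K : ℕ, β ^ θ ≤ K → α * K ≤ β / 2 →
      ∑ k ∈ Icc 1 K, (mz (β + α * k) : ℝ) ≤ (1 / (2 * θ) + ε) * K := by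
  obtain ⟨C, T0, hC, hT0, hmain⟩ := main_ineq hRH
  obtain ⟨C1, hC1, hprime⟩ := primesum α hα
  set lam : ℝ := 1 / (1 / (2 * θ) + ε / 2) with hlam
  have hlam0 : 0 < lam := by positivity
  have hinv : 1 / lam = 1 / (2 * θ) + ε / 2 := by rw [hlam, one_div_one_div]
  have hlam1 : lam < 2 * θ := by
    have h1 : lam < 1 / (1 / (2 * θ)) := by
      rw [hlam]
      apply one_div_lt_one_div_of_lt (by positivity)
      linarith
    rwa [one_div_one_div] at h1
  have hlam2 : lam ≤ 2 := by linarith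
  set δ : ℝ := (2 * θ - lam) / 2 with hδ
  have hδ0 : 0 < δ := by rw [hδ]; linarith
  have hδ1 : lam + 2 * δ = 2 * θ := by rw [hδ]; ring
  set p : ℝ := 1 + 3 / δ with hp
  have hp1 : 1 ≤ p := by
    rw [hp]; have : 0 < 3 / δ := by positivity
    linarith
  set C2 : ℝ := 2 * C1 + 2 * Real.exp (p ^ 2 / 2) * SS + C with hC2
  have hSS := SS_nonneg
  have hC20 : 0 < C2 := by positivity
  have hL : Tendsto (fun β : ℝ => Real.log (9 / 10 * β)) atTop atTop :=
    Real.tendsto_log_atTop.comp (tendsto_id.const_mul_atTop (by norm_num))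
  have hT : Tendsto (fun β : ℝ => 9 / 10 * β) atTop atTop :=
    tendsto_id.const_mul_atTop (by norm_num)
  have hev : ∀ᶠ β : ℝ in atTop,
      32 ≤ Real.log (9 / 10 * β) ∧
      128 * Real.log (9 / 10 * β) ^ 3 * Real.exp (-(δ / 2 * Real.log (9 / 10 * β))) ≤ 1 ∧
      4 * C2 / (lam * ε) ≤ Real.log (9 / 10 * β) ∧
      T0 ≤ 9 / 10 * β ∧ Real.log (9 / 10 * β) ≤ 1 / 10 * β ∧ 0 < β := by
    filter_upwards [hL.eventually_ge_atTop 32, hL.eventually (ev_cube δ hδ0),
      hL.eventually_ge_atTop (4 * C2 / (lam * ε)), hT.eventually_ge_atTop T0, ev_window,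
      eventually_gt_atTop (0 : ℝ)] with β h1 h2 h3 h4 h5 h6
    exact ⟨h1, h2, h3, h4, h5, h6⟩
  obtain ⟨H0, hH0⟩ := eventually_atTop.mp hev
  refine ⟨H0, fun β hβ K hK hαK => ?_⟩
  obtain ⟨h32, hcube, hbig, hTT0, hwin, hβ0⟩ := hH0 β hβ
  set T : ℝ := 9 / 10 * β with hTdef
  set L : ℝ := Real.log T with hLdef
  have hTpos : 0 < T := by positivity
  have hL0 : 0 < L := by linarith
  set I : ℕ := ⌈(lam + δ) * L / Real.log 2⌉₊ with hI
  have hlog2 : 0 < Real.log 2 := Real.log_pos (by norm_num)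
  have hI1 : (lam + δ) * L ≤ I * Real.log 2 := by
    have := Nat.le_ceil ((lam + δ) * L / Real.log 2)
    rw [div_le_iff₀ hlog2] at this
    exact this
  have hI2 : (I : ℝ) * Real.log 2 ≤ (lam + δ) * L + Real.log 2 := by
    have h1 := Nat.ceil_lt_add_one (show 0 ≤ (lam + δ) * L / Real.log 2 by positivity)
    rw [← hI] at h1
    have h2 : (I : ℝ) * Real.log 2 ≤ ((lam + δ) * L / Real.log 2 + 1) * Real.log 2 :=
      mul_le_mul_of_nonneg_right h1.le hlog2.le
    have h3 : ((lam + δ) * L / Real.log 2 + 1) * Real.log 2 = (lam + δ) * L + Real.log 2 := by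
      field_simp
    linarith
  have hIle : (I : ℝ) + 1 ≤ 4 * L := by
    have h1 := Nat.ceil_lt_add_one (show 0 ≤ (lam + δ) * L / Real.log 2 by positivity)
    rw [← hI] at h1
    have h2 : (lam + δ) * L / Real.log 2 ≤ 3 * L := by
      rw [div_le_iff₀ hlog2]
      have h3 : lam + δ ≤ 2 := by linarith
      have h4 := Real.log_two_gt_d9
      nlinarith
    linarith
  have hK0 : 0 < (K : ℝ) := lt_of_lt_of_le (by positivity) hK
  have hsqrt : (Real.sqrt 2) ^ I ≤ 2 * (Real.exp (θ * L) * Real.exp (-(δ / 2 * L))) := by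
    have h1 : (Real.sqrt 2) ^ I = Real.exp (I * Real.log 2 / 2) := by
      have h2 : Real.sqrt 2 = Real.exp (Real.log 2 / 2) := by
        rw [Real.sqrt_eq_rpow, Real.rpow_def_of_pos (by norm_num)]; congr 1; ring
      rw [h2, ← Real.exp_nat_mul]; congr 1; ring
    have h3 : (2 : ℝ) = Real.exp (Real.log 2) := (Real.exp_log (by norm_num)).symm
    rw [h1]
    calc Real.exp (I * Real.log 2 / 2) ≤ Real.exp (Real.log 2 + (θ * L + -(δ / 2 * L))) := by
          apply Real.exp_le_exp.mpr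
          have : (lam + δ) * L / 2 = θ * L + -(δ / 2 * L) := by
            rw [show lam = 2 * θ - 2 * δ by linarith]; ring
          linarith
      _ = _ := by rw [Real.exp_add, Real.exp_add, ← h3]
  have hTK : Real.exp (θ * L) ≤ K := by
    have h1 : Real.exp (θ * L) = T ^ θ := by
      rw [Real.rpow_def_of_pos hTpos]; congr 1; ring
    rw [h1]
    exact (Real.rpow_le_rpow hTpos.le (by linarith) hθ0.le).trans hK
  have hQ : ∑ n ∈ Ico 1 (2 ^ I), vonMangoldt n * (n : ℝ) ^ (-(1 / 2 : ℝ)) * DD α K n ≤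
      2 * C1 * K := by
    refine (hprime K I).trans ?_
    have h1 : ((I : ℝ) + 1) ^ 3 * (Real.sqrt 2) ^ I ≤ K := by
      have h2 : ((I : ℝ) + 1) ^ 3 ≤ (4 * L) ^ 3 := pow_le_pow_left₀ (by positivity) hIle 3
      calc ((I : ℝ) + 1) ^ 3 * (Real.sqrt 2) ^ I ≤
          (4 * L) ^ 3 * (2 * (Real.exp (θ * L) * Real.exp (-(δ / 2 * L)))) :=
            mul_le_mul h2 hsqrt (by positivity) (by positivity)
        _ = (128 * L ^ 3 * Real.exp (-(δ / 2 * L))) * Real.exp (θ * L) := by ring
        _ ≤ 1 * Real.exp (θ * L) := mul_le_mul_of_nonneg_right hcube (Real.exp_pos _).le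
        _ ≤ K := by rw [one_mul]; exact hTK
    have h3 : C1 * (K + ((I : ℝ) + 1) ^ 3 * (Real.sqrt 2) ^ I) ≤ C1 * (K + K) :=
      mul_le_mul_of_nonneg_left (by linarith) hC1.le
    linarith
  have hN1 : 1 ≤ 2 ^ I := Nat.one_le_two_pow
  have hm := hmain T hTT0 α β p (lam * L) K (2 ^ I) (by positivity) (by nlinarith) hp1 hN1
    (by
      intro k hk
      obtain ⟨hk1, hk2⟩ := mem_Icc.mp hk
      have hkK : (k : ℝ) ≤ K := by exact_mod_cast hk2
      have hk0 : (0 : ℝ) ≤ k := by positivity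
      have h1 : α * k ≤ α * K := mul_le_mul_of_nonneg_left hkK hα.le
      have h2 : 0 ≤ α * k := by positivity
      constructor
      · rw [← hLdef]; linarith
      · rw [← hLdef]; linarith)
  rw [← hLdef] at hm
  have hlogN : Real.log ((2 ^ I : ℕ) : ℝ) = I * Real.log 2 := by
    push_cast; rw [Real.log_pow]
  rw [hlogN] at hm
  have hB : Real.exp (p ^ 2 / 2 + p * (lam * L) + (1 - p) * (I * Real.log 2)) * (lam * L) ≤
      2 * Real.exp (p ^ 2 / 2) := by
    have h1 : p ^ 2 / 2 + p * (lam * L) + (1 - p) * (I * Real.log 2) ≤ p ^ 2 / 2 + -L := by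
      have h2 : (1 - p) * (I * Real.log 2) ≤ (1 - p) * ((lam + δ) * L) :=
        mul_le_mul_of_nonpos_left hI1 (by linarith)
      have h3 : p * (lam * L) + (1 - p) * ((lam + δ) * L) = lam * L - 3 * L := by
        rw [hp]; field_simp; ring
      nlinarith
    calc Real.exp (p ^ 2 / 2 + p * (lam * L) + (1 - p) * (I * Real.log 2)) * (lam * L)
        ≤ Real.exp (p ^ 2 / 2 + -L) * (lam * L) :=
          mul_le_mul_of_nonneg_right (Real.exp_le_exp.mpr h1) (by positivity)
      _ = Real.exp (p ^ 2 / 2) * (Real.exp (-L) * L * lam) := by rw [Real.exp_add]; ring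
      _ ≤ Real.exp (p ^ 2 / 2) * (1 * 2) := by
          apply mul_le_mul_of_nonneg_left _ (Real.exp_pos _).le
          apply mul_le_mul _ hlam2 hlam0.le (by norm_num)
          rw [Real.exp_neg, inv_mul_le_iff₀ (Real.exp_pos _), mul_one]
          linarith [Real.add_one_le_exp L]
      _ = _ := by ring
  have hm2 : lam * L / 2 * ∑ k ∈ Icc 1 K, (mz (β + α * k) : ℝ) ≤ K * (L / 2 + C2) := by
    refine hm.trans ?_
    have h1 : (K : ℝ) * Real.exp (p ^ 2 / 2 + p * (lam * L) + (1 - p) * (I * Real.log 2)) * SS *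
        (lam * L) = K * SS * (Real.exp (p ^ 2 / 2 + p * (lam * L) + (1 - p) * (I * Real.log 2)) *
        (lam * L)) := by ring
    rw [h1]
    have h2 : (K : ℝ) * SS * (Real.exp (p ^ 2 / 2 + p * (lam * L) + (1 - p) * (I * Real.log 2)) *
        (lam * L)) ≤ K * SS * (2 * Real.exp (p ^ 2 / 2)) :=
      mul_le_mul_of_nonneg_left hB (by positivity)
    rw [hC2]
    linarith
  have hm3 : ∑ k ∈ Icc 1 K, (mz (β + α * k) : ℝ) ≤ K * (L / 2 + C2) / (lam * L / 2) := by
    rw [le_div_iff₀ (by positivity), mul_comm]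
    exact hm2
  refine hm3.trans ?_
  have h1 : (K : ℝ) * (L / 2 + C2) / (lam * L / 2) = (1 / lam + 2 * C2 / (lam * L)) * K := by
    field_simp
  rw [h1, hinv]
  apply mul_le_mul_of_nonneg_right _ hK0.le
  have h2 : 2 * C2 / (lam * L) ≤ ε / 2 := by
    rw [div_le_iff₀ (by positivity)] at hbig ⊢
    linarith
  linarith

lemma ev_block (θ : ℝ) (hθ0 : 0 < θ) (hθ1 : θ < 1) (α : ℝ) (hα : 0 < α) (β : ℝ) :
    ∀ᶠ K : ℕ in atTop, (|β| + α * K) ^ θ ≤ (K / 4 : ℕ) := by
  -- (|β| + α K)^θ ≤ K/4 - 1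
  have h1 : Tendsto (fun x : ℝ => x ^ (1 - θ)) atTop atTop := tendsto_rpow_atTop (by linarith)
  have hnat : Tendsto (fun K : ℕ => (K : ℝ)) atTop atTop := tendsto_natCast_atTop_atTop
  have h2 := (h1.comp hnat).eventually_ge_atTop (8 * (1 + α) ^ θ)
  filter_upwards [h2, hnat.eventually_ge_atTop (|β|), hnat.eventually_ge_atTop 8] with K hK1 hK2 hK3
  simp only [Function.comp] at hK1
  have hK0 : (0 : ℝ) < K := by linarith
  have h3 : (|β| + α * K) ^ θ ≤ ((1 + α) * K) ^ θ := by
    apply Real.rpow_le_rpow (by positivity) (by linarith) hθ0.le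
  rw [Real.mul_rpow (by positivity) hK0.le] at h3
  have h4 : (K : ℝ) = K ^ θ * K ^ (1 - θ) := by
    rw [← Real.rpow_add hK0]; simp
  have h5 : (K : ℝ) ^ θ * (8 * (1 + α) ^ θ) ≤ K := by
    calc (K : ℝ) ^ θ * (8 * (1 + α) ^ θ) ≤ K ^ θ * K ^ (1 - θ) :=
          mul_le_mul_of_nonneg_left hK1 (by positivity)
      _ = K := h4.symm
  have h6 : (K : ℝ) / 8 ≤ (K / 4 : ℕ) := by
    have h7 : (K : ℝ) < 4 * ((K / 4 : ℕ) : ℝ) + 4 := by
      have : K < 4 * (K / 4) + 4 := by omega
      exact_mod_cast this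
    linarith
  nlinarith

theorem long_ap (hRH : SP.RHs) (α : ℝ) (hα : 0 < α) (β : ℝ) (ε : ℝ) (hε : 0 < ε) :
    ∃ K0 : ℕ, ∀ K : ℕ, K0 ≤ K →
      ∑ k ∈ Icc 1 K, (mz (β + α * k) : ℝ) ≤ (1 / 2 + ε) * K := by
  -- choose θ
  set θ : ℝ := 1 / (1 + ε / 2) with hθ
  have hθ0 : 0 < θ := by positivity
  have hθ1 : θ < 1 := by
    rw [hθ, div_lt_one (by positivity)]; linarith
  have hθi : 1 / (2 * θ) = 1 / 2 + ε / 4 := by
    rw [hθ]; field_simp; ring
  obtain ⟨H0, hH0⟩ := short_ap hRH α hα θ hθ0 hθ1.le (ε / 4) (by positivity)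
  rw [hθi] at hH0
  have hnat : Tendsto (fun K : ℕ => (K : ℝ)) atTop atTop := tendsto_natCast_atTop_atTop
  obtain ⟨K1, hK1⟩ := eventually_atTop.mp ((ev_block θ hθ0 hθ1 α hα β).and
    ((hnat.eventually_ge_atTop (8 * |β| / α)).and
      ((hnat.eventually_ge_atTop (2 * (H0 + |β|) / α)).and (hnat.eventually_ge_atTop 4))))
  set S : ℕ → ℝ := fun K => ∑ k ∈ Icc 1 K, (mz (β + α * k) : ℝ) with hS
  have hSmono : Monotone S := by
    intro a b hab
    simp only [hS]
    apply Finset.sum_le_sum_of_subset_of_nonneg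
    · exact Icc_subset_Icc le_rfl hab
    · intros; positivity
  set c : ℝ := 1 / 2 + ε / 4 + ε / 4 with hc
  have hc0 : 0 < c := by positivity
  have hind : ∀ K : ℕ, S K ≤ c * K + S K1 := by
    intro K
    induction K using Nat.strong_induction_on with
    | _ K ih =>
      by_cases hKK : K ≤ K1
      · have h1 := hSmono hKK
        have h2 : 0 ≤ c * K := by positivity
        linarith
      · obtain ⟨e1, e2, e3, e4⟩ := hK1 K (by omega)
        set m : ℕ := K / 4 with hm
        set K' : ℕ := K - m with hK'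
        have hm1 : 1 ≤ m := by
          have : 4 ≤ K := by exact_mod_cast e4
          omega
        have hmK : m ≤ K := by omega
        have hKeq : K = K' + m := by omega
        have hlt : K' < K := by omega
        have h1 := ih K' hlt
        have hsplit : S K = S K' + ∑ k ∈ Icc 1 m, (mz ((β + α * K') + α * k) : ℝ) := by
          simp only [hS]
          have e : Icc 1 K = Icc 1 K' ∪ (Icc 1 m).map (addLeftEmbedding K') := by
            ext x
            simp only [mem_Icc, mem_union, Finset.mem_map, addLeftEmbedding_apply]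
            constructor
            · intro hx
              by_cases hx1 : x ≤ K'
              · left; omega
              · right; exact ⟨x - K', by omega, by omega⟩
            · rintro (hx | ⟨y, hy, rfl⟩)
              · omega
              · omega
          rw [e, Finset.sum_union]
          · congr 1
            rw [Finset.sum_map]
            refine Finset.sum_congr rfl fun k _ => ?_
            simp only [addLeftEmbedding_apply]
            congr 2
            push_cast; ring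
          · rw [Finset.disjoint_left]
            intro x hx hx'
            simp only [mem_Icc, Finset.mem_map, addLeftEmbedding_apply] at hx hx'
            obtain ⟨y, hy, rfl⟩ := hx'
            omega
        have hK'r : (K' : ℝ) = K - m := by
          rw [hK']; push_cast [Nat.cast_sub hmK]; rfl
        have hm4 : (m : ℝ) ≤ K / 4 := by
          have : 4 * m ≤ K := by omega
          have h' : (4 : ℝ) * m ≤ K := by exact_mod_cast this
          linarith
        have hβ1 : -|β| ≤ β := neg_abs_le β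
        have hβ2 : β ≤ |β| := le_abs_self β
        have hαK : 8 * |β| ≤ α * K := by
          rw [div_le_iff₀ hα] at e2; linarith
        have hαK3 : 2 * (H0 + |β|) ≤ α * K := by
          rw [div_le_iff₀ hα] at e3; linarith
        have hαm : α * m ≤ α * K / 4 := by
          have := mul_le_mul_of_nonneg_left hm4 hα.le
          linarith
        have hαm0 : 0 ≤ α * m := by positivity
        have hαK' : α * K' = α * K - α * m := by rw [hK'r]; ring
        have hab0 : 0 ≤ |β| := abs_nonneg β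
        have h2 := hH0 (β + α * K') (by rw [hαK']; nlinarith) m (by
          refine le_trans (Real.rpow_le_rpow ?_ ?_ hθ0.le) e1
          · rw [hαK']; nlinarith
          · rw [hαK']; linarith) (by rw [hαK']; linarith)
        rw [hsplit]
        have h3 : c * (K : ℝ) = c * K' + c * m := by rw [hK'r]; ring
        rw [h3]
        have h4 : (1 / 2 + ε / 4 + ε / 4) * (m : ℝ) = c * m := by rw [hc]
        linarith
  obtain ⟨K2, hK2⟩ := eventually_atTop.mp (hnat.eventually_ge_atTop (2 * S K1 / ε))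
  refine ⟨K2, fun K hK => ?_⟩
  have h1 := hind K
  have h2 := hK2 K hK
  rw [div_le_iff₀ hε] at h2
  have h3 : c = 1 / 2 + ε / 2 := by rw [hc]; ring
  rw [h3] at h1
  have h4 : S K = ∑ k ∈ Icc 1 K, (mz (β + α * k) : ℝ) := rfl
  rw [← h4]
  linarith

end Pool.Agent.H345R2.AP
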