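import Mathlib

/-! The Fejér-type integral on the zero side. -/

set_option autoImplicit false

open MeasureTheory intervalIntegral

namespace Pool.Agent.H345R2.AP

lemma fejer_zero (U : ℝ) (hU : 0 < U) : ∫ u in (0 : ℝ)..U, (1 - u / U) = U / 2 := by
  have h : ∀ u ∈ Set.uIcc (0 : ℝ) U, HasDerivAt (fun u => u - u ^ 2 / (2 * U)) (1 - u / U) u := by
    intro u _
    have h1 := (hasDerivAt_id u).sub (((hasDerivAt_id u).pow 2).div_const (2 * U))
    refine h1.congr_deriv ?_
    simp only [id]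
    field_simp
    push_cast
    ring
  rw [integral_eq_sub_of_hasDerivAt h (Continuous.intervalIntegrable (by fun_prop) _ _)]
  field_simp
  ring

lemma fejer_ne (U x : ℝ) (hU : 0 < U) (hx : x ≠ 0) :
    ∫ u in (0 : ℝ)..U, (1 - u / U) * Real.cos (u * x) = (1 - Real.cos (U * x)) / (U * x ^ 2) := by
  have h : ∀ u ∈ Set.uIcc (0 : ℝ) U, HasDerivAt
      (fun u => (1 - u / U) * Real.sin (u * x) / x - Real.cos (u * x) / (U * x ^ 2))
      ((1 - u / U) * Real.cos (u * x)) u := by
    intro u _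
    have h0 : HasDerivAt (fun u : ℝ => u * x) x u := by
      simpa using (hasDerivAt_id u).mul_const x
    have h1 : HasDerivAt (fun u : ℝ => 1 - u / U) (-(1 / U)) u := by
      simpa using ((hasDerivAt_id u).div_const U).const_sub 1
    have h2 := (((h1.mul h0.sin).div_const x)).sub (h0.cos.div_const (U * x ^ 2))
    refine h2.congr_deriv ?_
    field_simp
    ring
  rw [integral_eq_sub_of_hasDerivAt h (Continuous.intervalIntegrable (by fun_prop) _ _)]
  field_simp
  simp
  ring

lemma fejer_nonneg (U x : ℝ) (hU : 0 < U) :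
    0 ≤ ∫ u in (0 : ℝ)..U, (1 - u / U) * Real.cos (u * x) := by
  by_cases hx : x = 0
  · subst hx
    simp only [mul_zero, Real.cos_zero, mul_one]
    rw [fejer_zero U hU]; positivity
  · rw [fejer_ne U x hU hx]
    have := Real.cos_le_one (U * x)
    apply div_nonneg (by linarith)
    positivity

lemma gauss_half (U : ℝ) (hU : 0 ≤ U) :
    ∫ u in (0 : ℝ)..U, Real.exp (-u ^ 2 / 2) ≤ Real.sqrt (2 * Real.pi) / 2 := by
  have hint : Integrable (fun u : ℝ => Real.exp (-(1 / 2) * u ^ 2)) :=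
    integrable_exp_neg_mul_sq (by norm_num)
  have h1 : ∫ u in Set.Ioi (0 : ℝ), Real.exp (-(1 / 2) * u ^ 2) = Real.sqrt (2 * Real.pi) / 2 := by
    rw [integral_gaussian_Ioi]
    congr 2
    ring
  rw [← h1, intervalIntegral.integral_of_le hU]
  have h2 : (fun u : ℝ => Real.exp (-u ^ 2 / 2)) = fun u => Real.exp (-(1 / 2) * u ^ 2) := by
    funext u; congr 1; ring
  rw [h2]
  exact setIntegral_mono_set hint.integrableOn
    (Filter.Eventually.of_forall fun u => (Real.exp_pos _).le)
    (Filter.Eventually.of_forall fun u hu => hu.1)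

lemma gauss_full (U c : ℝ) (hU : 0 ≤ U) :
    ∫ u in (0 : ℝ)..U, Real.exp (-(u - c) ^ 2 / 2) ≤ Real.sqrt (2 * Real.pi) := by
  have hint : Integrable (fun u : ℝ => Real.exp (-(1 / 2) * u ^ 2)) :=
    integrable_exp_neg_mul_sq (by norm_num)
  have hint2 : Integrable (fun u : ℝ => Real.exp (-(1 / 2) * (u - c) ^ 2)) :=
    hint.comp_sub_right c
  have h1 : ∫ u : ℝ, Real.exp (-(1 / 2) * (u - c) ^ 2) = Real.sqrt (2 * Real.pi) := by
    rw [integral_sub_right_eq_self (fun u : ℝ => Real.exp (-(1 / 2) * u ^ 2)) c,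
      integral_gaussian]
    congr 1
    ring
  rw [← h1, intervalIntegral.integral_of_le hU]
  have h2 : (fun u : ℝ => Real.exp (-(u - c) ^ 2 / 2)) = fun u => Real.exp (-(1 / 2) * (u - c) ^ 2) := by
    funext u; congr 1; ring
  rw [h2]
  exact setIntegral_le_integral hint2 (Filter.Eventually.of_forall fun u => (Real.exp_pos _).le)

lemma exp_int (U : ℝ) (hU : 0 ≤ U) : ∫ u in (0 : ℝ)..U, Real.exp (-u) ≤ 1 := by
  have h : ∀ u ∈ Set.uIcc (0 : ℝ) U, HasDerivAt (fun u => -Real.exp (-u)) (Real.exp (-u)) u := by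
    intro u _
    have := ((hasDerivAt_id u).neg.exp).neg
    refine this.congr_deriv ?_
    simp
  rw [integral_eq_sub_of_hasDerivAt h (Continuous.intervalIntegrable (by fun_prop) _ _)]
  have := Real.exp_pos (-U)
  simp
  linarith

end Pool.Agent.H345R2.AP
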