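import Pool.Agent.H345R2.AP.Tail
import Pool.Agent.H345R2.AP.Zero
import Pool.Agent.H876R2.LG.EFX

/-! The main inequality. -/

set_option autoImplicit false

open Finset ArithmeticFunction MeasureTheory intervalIntegral

namespace Pool.Agent.H345R2.AP

/-- multiplicity of the zero of zeta at `1/2 + i t` (zero if not a zero) -/
noncomputable def mz (t : ℝ) : ℕ := analyticOrderNatAt riemannZeta (1 / 2 + Complex.I * t)

noncomputable def Zs (T t u : ℝ) : ℂ :=
  ∑ᶠ s ∈ SP.ZZ T, (SP.mu s : ℂ) * (Real.exp (-(s.im - t) ^ 2 / 2) : ℂ) *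
        Complex.exp (Complex.I * ((u * (s.im - t) : ℝ) : ℂ))

lemma Zs_re (T t u : ℝ) (hT : 1 ≤ T) :
    (Zs T t u).re = ∑ s ∈ (H370.zset_finite H370.good_zeta T (2 * T) hT).toFinset,
      (SP.mu s : ℝ) * Real.exp (-(s.im - t) ^ 2 / 2) * Real.cos (u * (s.im - t)) := by
  unfold Zs SP.ZZ
  rw [finsum_mem_eq_finite_toFinset_sum _ (H370.zset_finite H370.good_zeta T (2 * T) hT),
    Complex.re_sum]
  refine Finset.sum_congr rfl fun s _ => ?_
  have h1 : (SP.mu s : ℂ) * (Real.exp (-(s.im - t) ^ 2 / 2) : ℂ) =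
      (((SP.mu s : ℝ) * Real.exp (-(s.im - t) ^ 2 / 2) : ℝ) : ℂ) := by push_cast; rfl
  rw [h1, Complex.re_ofReal_mul]
  congr 1
  rw [mul_comm Complex.I, Complex.exp_ofReal_mul_I_re]

lemma zero_side (T t U : ℝ) (hT : 1 ≤ T) (hU : 0 < U) (h1 : T < t) (h2 : t ≤ 2 * T) :
    U / 2 * mz t ≤ ∫ u in (0 : ℝ)..U, (1 - u / U) * (Zs T t u).re := by
  classical
  have hfin := H370.zset_finite H370.good_zeta T (2 * T) hT
  simp only [Zs_re T t _ hT, Finset.mul_sum]
  rw [intervalIntegral.integral_finsetSum]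
  swap
  · intro s _
    exact Continuous.intervalIntegrable (by fun_prop) _ _
  have e : ∀ s : ℂ, ∫ u in (0 : ℝ)..U, (1 - u / U) * ((SP.mu s : ℝ) * Real.exp (-(s.im - t) ^ 2 / 2) *
      Real.cos (u * (s.im - t))) = (SP.mu s : ℝ) * Real.exp (-(s.im - t) ^ 2 / 2) *
      ∫ u in (0 : ℝ)..U, (1 - u / U) * Real.cos (u * (s.im - t)) := by
    intro s
    rw [← intervalIntegral.integral_const_mul]
    congr 1
    funext u; ring
  simp only [e]
  have hnn : ∀ s : ℂ, 0 ≤ (SP.mu s : ℝ) * Real.exp (-(s.im - t) ^ 2 / 2) *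
      ∫ u in (0 : ℝ)..U, (1 - u / U) * Real.cos (u * (s.im - t)) := fun s =>
    mul_nonneg (by positivity) (fejer_nonneg U _ hU)
  by_cases hz : riemannZeta (1 / 2 + Complex.I * t) = 0
  · set s0 : ℂ := 1 / 2 + Complex.I * t with hs0
    have hre : s0.re = 1 / 2 := by simp [hs0]
    have him : s0.im = t := by simp [hs0]
    have hmem : s0 ∈ hfin.toFinset := by
      rw [Set.Finite.mem_toFinset]
      refine ⟨?_, ?_, ?_, ?_, hz⟩
      · rw [hre]; norm_num
      · rw [hre]; norm_num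
      · rw [him]; exact h1
      · rw [him]; exact h2
    refine le_trans (le_of_eq ?_) (Finset.single_le_sum (fun s _ => hnn s) hmem)
    rw [him, sub_self]
    simp only [mul_zero, Real.cos_zero, mul_one]
    rw [fejer_zero U hU]
    simp [mz, SP.mu, H370.mult, hs0]
    ring
  · have h0 : mz t = 0 := by
      unfold mz
      rw [analyticOrderNatAt, ENat.toNat_eq_zero]
      left
      rw [analyticOrderAt_eq_zero]
      right; exact hz
    rw [h0]
    simp only [Nat.cast_zero, mul_zero]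
    exact Finset.sum_nonneg fun s _ => hnn s

lemma Zs_cont (T t : ℝ) (hT : 1 ≤ T) : Continuous (fun u => (Zs T t u).re) := by
  simp only [Zs_re T t _ hT]
  fun_prop

theorem main_ineq (hRH : SP.RHs) : ∃ C T0 : ℝ, 0 < C ∧ 10 ≤ T0 ∧ ∀ T : ℝ, T0 ≤ T →
    ∀ (α β p U : ℝ) (K N : ℕ), 0 < U → U ≤ Real.log T ^ 2 / 16 → 1 ≤ p → 1 ≤ N →
    (∀ k ∈ Icc 1 K, T + Real.log T ≤ β + α * k ∧ β + α * k ≤ 2 * T - Real.log T) →
    U / 2 * ∑ k ∈ Icc 1 K, (mz (β + α * k) : ℝ) ≤
      K * Real.log T / 2 +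
      ∑ n ∈ Ico 1 N, vonMangoldt n * (n : ℝ) ^ (-(1 / 2 : ℝ)) * DD α K n +
      K * Real.exp (p ^ 2 / 2 + p * U + (1 - p) * Real.log N) * SS * U + K * C := by
  obtain ⟨C, T0, hC, hT0, hE⟩ := LG.EFX hRH
  refine ⟨C, T0, hC, hT0, ?_⟩
  intro T hT α β p U K N hU hUL hp hN hk
  have hT1 : 1 ≤ T := by linarith
  set L := Real.log T with hL
  have hL0 : 0 < L := Real.log_pos (by linarith)
  set c0 : ℝ := 1 / Real.sqrt (2 * Real.pi) with hc0
  have hpi := Real.pi_gt_three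
  have hs1 : 1 ≤ Real.sqrt (2 * Real.pi) := by
    rw [show (1 : ℝ) = Real.sqrt 1 by simp]
    exact Real.sqrt_le_sqrt (by linarith)
  have hs0 : 0 < Real.sqrt (2 * Real.pi) := by linarith
  have hc00 : 0 < c0 := by positivity
  have hc01 : c0 ≤ 1 := by
    rw [hc0, div_le_one hs0]; exact hs1
  have hc0s : c0 * Real.sqrt (2 * Real.pi) = 1 := by
    rw [hc0]; field_simp
  set B := Real.exp (p ^ 2 / 2 + p * U + (1 - p) * Real.log N) with hB
  have hB0 : 0 < B := Real.exp_pos _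
  have hSS := SS_nonneg
  -- pointwise
  have hpt : ∀ u ∈ Set.Icc (0 : ℝ) U, ∑ k ∈ Icc 1 K, (Zs T (β + α * k) u).re ≤
      c0 * (K * L * Real.exp (-u ^ 2 / 2) +
        ∑ n ∈ Ico 1 N, vonMangoldt n * (n : ℝ) ^ (-(1 / 2 : ℝ)) * DD α K n *
        Real.exp (-(u - Real.log n) ^ 2 / 2) + K * B * SS) + K * C * Real.exp (-u) := by
    intro u hu
    have hpr := prime_pt α β K N hN p U u hp hu.1 hu.2
    set P : ℕ → ℂ := fun k => ∑' n : ℕ, (vonMangoldt n : ℂ) *
        (n : ℂ) ^ (-(1 / 2 : ℂ) - Complex.I * ((β + α * k : ℝ) : ℂ)) *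
        (Real.exp (-(u - Real.log n) ^ 2 / 2) : ℂ) with hP
    have h1 : ∀ k ∈ Icc 1 K, ‖Zs T (β + α * k) u -
        (c0 : ℂ) * (((L * Real.exp (-u ^ 2 / 2) : ℝ) : ℂ) - P k)‖ ≤ C * Real.exp (-u) := by
      intro k hkk
      obtain ⟨h3, h4⟩ := hk k hkk
      exact hE T hT u (β + α * k) hu.1 (hu.2.trans hUL) h3 h4
    have h2 : ‖∑ k ∈ Icc 1 K, (Zs T (β + α * k) u -
        (c0 : ℂ) * (((L * Real.exp (-u ^ 2 / 2) : ℝ) : ℂ) - P k))‖ ≤ K * (C * Real.exp (-u)) := by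
      refine (norm_sum_le _ _).trans ?_
      refine (Finset.sum_le_sum h1).trans ?_
      rw [Finset.sum_const, Nat.card_Icc, nsmul_eq_mul]
      simp
    rw [Finset.sum_sub_distrib, ← Finset.mul_sum, Finset.sum_sub_distrib, Finset.sum_const,
      Nat.card_Icc, nsmul_eq_mul] at h2
    have h3 := (Complex.re_le_norm _).trans h2
    have h4 : (∑ k ∈ Icc 1 K, Zs T (β + α * k) u -
        (c0 : ℂ) * (((K + 1 - 1 : ℕ) : ℂ) * ((L * Real.exp (-u ^ 2 / 2) : ℝ) : ℂ) -
        ∑ k ∈ Icc 1 K, P k)).re = ∑ k ∈ Icc 1 K, (Zs T (β + α * k) u).re -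
        c0 * (K * (L * Real.exp (-u ^ 2 / 2)) - (∑ k ∈ Icc 1 K, P k).re) := by
      rw [Complex.sub_re, Complex.re_sum, Complex.re_ofReal_mul, Complex.sub_re]
      congr 3
      have : (((K + 1 - 1 : ℕ) : ℂ) * ((L * Real.exp (-u ^ 2 / 2) : ℝ) : ℂ)) =
          ((K * (L * Real.exp (-u ^ 2 / 2)) : ℝ) : ℂ) := by
        push_cast
        simp
      rw [this, Complex.ofReal_re]
    rw [h4] at h3
    have h5 : -(∑ k ∈ Icc 1 K, P k).re ≤ ‖∑ k ∈ Icc 1 K, P k‖ :=
      (neg_le_abs _).trans (Complex.abs_re_le_norm _)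
    have h6 : c0 * (-(∑ k ∈ Icc 1 K, P k).re) ≤
        c0 * (∑ n ∈ Ico 1 N, vonMangoldt n * (n : ℝ) ^ (-(1 / 2 : ℝ)) * DD α K n *
        Real.exp (-(u - Real.log n) ^ 2 / 2) + K * B * SS) :=
      mul_le_mul_of_nonneg_left (h5.trans hpr) hc00.le
    linarith
  -- integrate
  have hz : U / 2 * ∑ k ∈ Icc 1 K, (mz (β + α * k) : ℝ) ≤
      ∫ u in (0 : ℝ)..U, (1 - u / U) * ∑ k ∈ Icc 1 K, (Zs T (β + α * k) u).re := by
    simp only [Finset.mul_sum]
    rw [intervalIntegral.integral_finsetSum]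
    · refine Finset.sum_le_sum fun k hkk => ?_
      obtain ⟨h3, h4⟩ := hk k hkk
      exact zero_side T (β + α * k) U hT1 hU (by linarith) (by linarith)
    · intro k _
      have := Zs_cont T (β + α * k) hT1
      exact Continuous.intervalIntegrable (by fun_prop) _ _
  refine hz.trans ?_
  have hmono : ∫ u in (0 : ℝ)..U, (1 - u / U) * ∑ k ∈ Icc 1 K, (Zs T (β + α * k) u).re ≤
      ∫ u in (0 : ℝ)..U, (c0 * (K * L * Real.exp (-u ^ 2 / 2) +
        ∑ n ∈ Ico 1 N, vonMangoldt n * (n : ℝ) ^ (-(1 / 2 : ℝ)) * DD α K n *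
        Real.exp (-(u - Real.log n) ^ 2 / 2) + K * B * SS) + K * C * Real.exp (-u)) := by
    apply intervalIntegral.integral_mono_on hU.le
    · have : ∀ k : ℕ, Continuous (fun u => (Zs T (β + α * k) u).re) :=
        fun k => Zs_cont T (β + α * k) hT1
      exact Continuous.intervalIntegrable (by fun_prop) _ _
    · exact Continuous.intervalIntegrable (by fun_prop) _ _
    · intro u hu
      have hw0 : 0 ≤ 1 - u / U := by
        rw [sub_nonneg, div_le_one hU]; exact hu.2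
      have hw1 : 1 - u / U ≤ 1 := by
        have : 0 ≤ u / U := div_nonneg hu.1 hU.le
        linarith
      have hR0 : 0 ≤ c0 * (K * L * Real.exp (-u ^ 2 / 2) +
        ∑ n ∈ Ico 1 N, vonMangoldt n * (n : ℝ) ^ (-(1 / 2 : ℝ)) * DD α K n *
        Real.exp (-(u - Real.log n) ^ 2 / 2) + K * B * SS) + K * C * Real.exp (-u) := by
        have : 0 ≤ ∑ n ∈ Ico 1 N, vonMangoldt n * (n : ℝ) ^ (-(1 / 2 : ℝ)) * DD α K n *
            Real.exp (-(u - Real.log n) ^ 2 / 2) :=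
          Finset.sum_nonneg fun n _ => mul_nonneg (mul_nonneg (mul_nonneg vonMangoldt_nonneg
            (by positivity)) (DD_nonneg _ _ _)) (Real.exp_pos _).le
        positivity
      calc (1 - u / U) * ∑ k ∈ Icc 1 K, (Zs T (β + α * k) u).re ≤ (1 - u / U) * _ :=
            mul_le_mul_of_nonneg_left (hpt u hu) hw0
        _ ≤ _ := by
          refine (mul_le_mul_of_nonneg_right hw1 hR0).trans (le_of_eq (one_mul _))
  refine hmono.trans ?_
  rw [intervalIntegral.integral_add (Continuous.intervalIntegrable (by fun_prop) _ _)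
    (Continuous.intervalIntegrable (by fun_prop) _ _), intervalIntegral.integral_const_mul,
    intervalIntegral.integral_const_mul,
    intervalIntegral.integral_add (Continuous.intervalIntegrable (by fun_prop) _ _)
    (Continuous.intervalIntegrable (by fun_prop) _ _),
    intervalIntegral.integral_add (Continuous.intervalIntegrable (by fun_prop) _ _)
    (Continuous.intervalIntegrable (by fun_prop) _ _), intervalIntegral.integral_const_mul,
    intervalIntegral.integral_const,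
    intervalIntegral.integral_finsetSum (fun n _ =>
      Continuous.intervalIntegrable (by fun_prop) _ _)]
  simp only [intervalIntegral.integral_const_mul, sub_zero, smul_eq_mul]
  have g1 := gauss_half U hU.le
  have g3 := exp_int U hU.le
  have hS : ∑ n ∈ Ico 1 N, vonMangoldt n * (n : ℝ) ^ (-(1 / 2 : ℝ)) * DD α K n *
      ∫ u in (0 : ℝ)..U, Real.exp (-(u - Real.log n) ^ 2 / 2) ≤
      (∑ n ∈ Ico 1 N, vonMangoldt n * (n : ℝ) ^ (-(1 / 2 : ℝ)) * DD α K n) *
        Real.sqrt (2 * Real.pi) := by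
    rw [Finset.sum_mul]
    refine Finset.sum_le_sum fun n _ => ?_
    apply mul_le_mul_of_nonneg_left (gauss_full U _ hU.le)
    exact mul_nonneg (mul_nonneg vonMangoldt_nonneg (by positivity)) (DD_nonneg _ _ _)
  set Q := ∑ n ∈ Ico 1 N, vonMangoldt n * (n : ℝ) ^ (-(1 / 2 : ℝ)) * DD α K n with hQ
  have hKL : 0 ≤ (K : ℝ) * L := by positivity
  have hKC : 0 ≤ (K : ℝ) * C := by positivity
  have t1 : (K : ℝ) * L * ∫ u in (0 : ℝ)..U, Real.exp (-u ^ 2 / 2) ≤
      K * L * (Real.sqrt (2 * Real.pi) / 2) := mul_le_mul_of_nonneg_left g1 hKL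
  have t3 : (K : ℝ) * C * ∫ u in (0 : ℝ)..U, Real.exp (-u) ≤ K * C * 1 :=
    mul_le_mul_of_nonneg_left g3 hKC
  have t4 : c0 * (U * (K * B * SS)) ≤ 1 * (U * (K * B * SS)) :=
    mul_le_mul_of_nonneg_right hc01 (by positivity)
  have t5 : c0 * ((K : ℝ) * L * (∫ u in (0 : ℝ)..U, Real.exp (-u ^ 2 / 2)) +
      (∑ n ∈ Ico 1 N, vonMangoldt n * (n : ℝ) ^ (-(1 / 2 : ℝ)) * DD α K n *
      ∫ u in (0 : ℝ)..U, Real.exp (-(u - Real.log n) ^ 2 / 2))) ≤
      c0 * (K * L * (Real.sqrt (2 * Real.pi) / 2) + Q * Real.sqrt (2 * Real.pi)) :=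
    mul_le_mul_of_nonneg_left (add_le_add t1 hS) hc00.le
  have t6 : c0 * (K * L * (Real.sqrt (2 * Real.pi) / 2) + Q * Real.sqrt (2 * Real.pi)) =
      (K * L / 2 + Q) * (c0 * Real.sqrt (2 * Real.pi)) := by ring
  rw [t6, hc0s] at t5
  nlinarith [t5, t3, t4]

end Pool.Agent.H345R2.AP
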