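import Pool.Agent.H345R2.AP.Block
import Pool.Agent.H370R2.EF

/-! The prime sum over a vertical arithmetic progression. -/

set_option autoImplicit false

open Finset ArithmeticFunction

namespace Pool.Agent.H345R2.AP

lemma split_blocks (f : ℕ → ℝ) (I : ℕ) :
    ∑ n ∈ Ico 1 (2 ^ I), f n = ∑ i ∈ range I, ∑ n ∈ Ico (2 ^ i) (2 ^ (i + 1)), f n := by
  induction I with
  | zero => simp
  | succ I ih =>
    rw [Finset.sum_range_succ, ← ih]
    rw [Finset.sum_Ico_consecutive]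
    · exact Nat.one_le_two_pow
    · exact Nat.pow_le_pow_right (by norm_num) (by omega)

lemma block_wt (α : ℝ) (hα : 0 < α) (K i : ℕ) :
    ∑ n ∈ Ico (2 ^ i) (2 ^ (i + 1)), vonMangoldt n * (n : ℝ) ^ (-(1 / 2 : ℝ)) * DD α K n ≤
      (i + 1) * ((Real.sqrt 2)⁻¹) ^ i * ((α + 2) * (K + 32 * (1 + i) * 2 ^ i / α)) := by
  have h2 : (0 : ℝ) < Real.sqrt 2 := by positivity
  refine le_trans ?_ (mul_le_mul_of_nonneg_left (block α hα K i) (by positivity))
  rw [Finset.mul_sum]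
  refine Finset.sum_le_sum fun n hn => ?_
  obtain ⟨h1, h3⟩ := mem_Ico.mp hn
  apply mul_le_mul_of_nonneg_right _ (DD_nonneg α K n)
  have hn0 : 0 < n := lt_of_lt_of_le (by positivity) h1
  have hn0' : (0 : ℝ) < n := by exact_mod_cast hn0
  apply mul_le_mul _ _ (by positivity) (by positivity)
  · refine vonMangoldt_le_log.trans ?_
    have h4 : Real.log n ≤ Real.log (2 ^ (i + 1)) := by
      apply Real.log_le_log hn0'
      exact_mod_cast h3.le
    rw [Real.log_pow] at h4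
    have := Real.log_two_lt_d9
    have hi : (0 : ℝ) ≤ i := by positivity
    push_cast at h4
    nlinarith
  · have h4 : ((2 : ℝ) ^ i) ^ (-(1 / 2 : ℝ)) = (Real.sqrt 2)⁻¹ ^ i := by
      rw [Real.sqrt_eq_rpow, ← Real.rpow_neg (by norm_num), ← Real.rpow_natCast, ← Real.rpow_natCast,
        ← Real.rpow_mul (by norm_num), ← Real.rpow_mul (by norm_num)]
      congr 1; ring
    rw [← h4]
    apply Real.rpow_le_rpow_of_nonpos (by positivity)
    · exact_mod_cast h1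
    · norm_num

lemma sum_geo : Summable (fun i : ℕ => ((i : ℝ) + 1) * ((Real.sqrt 2)⁻¹) ^ i) := by
  have h2 : (1 : ℝ) < Real.sqrt 2 := by
    rw [show (1 : ℝ) = Real.sqrt 1 by simp]
    exact Real.sqrt_lt_sqrt (by norm_num) (by norm_num)
  have hr : ‖(Real.sqrt 2)⁻¹‖ < 1 := by
    rw [Real.norm_eq_abs, abs_of_pos (by positivity)]
    exact inv_lt_one_of_one_lt₀ h2
  have h1 := summable_pow_mul_geometric_of_norm_lt_one 1 hr
  have h3 := summable_pow_mul_geometric_of_norm_lt_one 0 hr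
  refine (h1.add h3).congr fun i => ?_
  ring

theorem primesum (α : ℝ) (hα : 0 < α) : ∃ C : ℝ, 0 < C ∧ ∀ K I : ℕ,
    ∑ n ∈ Ico 1 (2 ^ I), vonMangoldt n * (n : ℝ) ^ (-(1 / 2 : ℝ)) * DD α K n ≤
      C * (K + (I + 1) ^ 3 * (Real.sqrt 2) ^ I) := by
  have h2 : (1 : ℝ) < Real.sqrt 2 := by
    rw [show (1 : ℝ) = Real.sqrt 1 by simp]
    exact Real.sqrt_lt_sqrt (by norm_num) (by norm_num)
  have hs := sum_geo
  set A : ℝ := ∑' i : ℕ, ((i : ℝ) + 1) * ((Real.sqrt 2)⁻¹) ^ i with hA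
  have hA0 : 0 ≤ A := tsum_nonneg fun i => by positivity
  refine ⟨(α + 2) * A + (α + 2) * 32 / α, by positivity, fun K I => ?_⟩
  rw [split_blocks]
  have h1 : ∀ i ∈ range I, ∑ n ∈ Ico (2 ^ i) (2 ^ (i + 1)),
      vonMangoldt n * (n : ℝ) ^ (-(1 / 2 : ℝ)) * DD α K n ≤
      (α + 2) * K * (((i : ℝ) + 1) * ((Real.sqrt 2)⁻¹) ^ i) +
        (α + 2) * 32 / α * ((I + 1) ^ 2 * (Real.sqrt 2) ^ I) := by
    intro i hi
    have hiI : i < I := mem_range.mp hi
    refine (block_wt α hα K i).trans ?_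
    have h3 : ((Real.sqrt 2)⁻¹) ^ i * 2 ^ i = (Real.sqrt 2) ^ i := by
      rw [← mul_pow]
      congr 1
      rw [inv_mul_eq_div, div_eq_iff (by positivity)]
      rw [Real.mul_self_sqrt (by norm_num)]
    have h4 : ((i : ℝ) + 1) * ((Real.sqrt 2)⁻¹) ^ i * ((α + 2) * (K + 32 * (1 + i) * 2 ^ i / α)) =
        (α + 2) * K * (((i : ℝ) + 1) * ((Real.sqrt 2)⁻¹) ^ i) +
        (α + 2) * 32 / α * ((i + 1) ^ 2 * (((Real.sqrt 2)⁻¹) ^ i * 2 ^ i)) := by
      field_simp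
      ring
    rw [h4, h3]
    have h5 : ((i : ℝ) + 1) ^ 2 * (Real.sqrt 2) ^ i ≤ (I + 1) ^ 2 * (Real.sqrt 2) ^ I := by
      have hiI' : (i : ℝ) ≤ I := by exact_mod_cast hiI.le
      apply mul_le_mul _ _ (by positivity) (by positivity)
      · apply pow_le_pow_left₀ (by positivity); linarith
      · exact pow_le_pow_right₀ h2.le hiI.le
    have h6 : (α + 2) * 32 / α * ((i + 1) ^ 2 * (Real.sqrt 2) ^ i) ≤
        (α + 2) * 32 / α * ((I + 1) ^ 2 * (Real.sqrt 2) ^ I) :=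
      mul_le_mul_of_nonneg_left h5 (by positivity)
    linarith
  refine (Finset.sum_le_sum h1).trans ?_
  rw [Finset.sum_add_distrib, ← Finset.mul_sum, Finset.sum_const, card_range, nsmul_eq_mul]
  have h7 : ∑ i ∈ range I, ((i : ℝ) + 1) * ((Real.sqrt 2)⁻¹) ^ i ≤ A :=
    hs.sum_le_tsum _ fun i _ => by positivity
  have h8 : (α + 2) * K * ∑ i ∈ range I, ((i : ℝ) + 1) * ((Real.sqrt 2)⁻¹) ^ i ≤
      (α + 2) * K * A := mul_le_mul_of_nonneg_left h7 (by positivity)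
  set G : ℝ := (Real.sqrt 2) ^ I with hG
  have hG0 : 0 < G := by positivity
  set c : ℝ := (α + 2) * 32 / α with hc
  have hc0 : 0 < c := by positivity
  have h9 : (I : ℝ) * (c * ((I + 1) ^ 2 * G)) ≤ c * ((I + 1) ^ 3 * G) := by
    have : 0 ≤ c * ((I + 1) ^ 2 * G) := by positivity
    nlinarith
  have h10 : 0 ≤ (α + 2) * A * ((I + 1) ^ 3 * G) := by positivity
  have h11 : 0 ≤ c * K := by positivity
  nlinarith

end Pool.Agent.H345R2.AP
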