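import Pool.Agent.H345R2.AP.Prime

/-! Pointwise bound of the prime side. -/

set_option autoImplicit false

open Finset ArithmeticFunction

namespace Pool.Agent.H345R2.AP

noncomputable def SS : ℝ := ∑' n : ℕ, vonMangoldt n * (n : ℝ) ^ (-(3 / 2 : ℝ))

lemma SS_nonneg : 0 ≤ SS := tsum_nonneg fun n => mul_nonneg vonMangoldt_nonneg (by positivity)

lemma gauss_le (p x : ℝ) : Real.exp (-x ^ 2 / 2) ≤ Real.exp (p ^ 2 / 2 - p * x) := by
  apply Real.exp_le_exp.mpr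
  nlinarith [sq_nonneg (x - p)]

lemma tail_pt (N n : ℕ) (hN : 1 ≤ N) (hn : N ≤ n) (p U u : ℝ) (hp : 1 ≤ p) (hu : u ≤ U) :
    (n : ℝ) * Real.exp (-(u - Real.log n) ^ 2 / 2) ≤
      Real.exp (p ^ 2 / 2 + p * U + (1 - p) * Real.log N) := by
  have hn0 : (0 : ℝ) < n := by exact_mod_cast (by omega : 0 < n)
  have hN0 : (0 : ℝ) < N := by exact_mod_cast (by omega : 0 < N)
  have h1 := gauss_le p (Real.log n - u)
  have h2 : -(Real.log n - u) ^ 2 / 2 = -(u - Real.log n) ^ 2 / 2 := by ring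
  rw [h2] at h1
  have h3 : (n : ℝ) = Real.exp (Real.log n) := (Real.exp_log hn0).symm
  calc (n : ℝ) * Real.exp (-(u - Real.log n) ^ 2 / 2)
      ≤ (n : ℝ) * Real.exp (p ^ 2 / 2 - p * (Real.log n - u)) :=
        mul_le_mul_of_nonneg_left h1 hn0.le
    _ = Real.exp (Real.log n) * Real.exp (p ^ 2 / 2 - p * (Real.log n - u)) := by rw [← h3]
    _ = Real.exp (Real.log n + (p ^ 2 / 2 - p * (Real.log n - u))) := by rw [Real.exp_add]
    _ ≤ _ := by
      apply Real.exp_le_exp.mpr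
      have h4 : Real.log N ≤ Real.log n := Real.log_le_log hN0 (by exact_mod_cast hn)
      nlinarith

lemma cpow_split (n : ℕ) (hn : 0 < n) (t : ℝ) :
    (n : ℂ) ^ (-(1 / 2 : ℂ) - Complex.I * t) =
      (((n : ℝ) ^ (-(1 / 2 : ℝ)) : ℝ) : ℂ) * Complex.exp (-(Complex.I * ((t * Real.log n : ℝ) : ℂ))) := by
  have hn0 : (n : ℂ) ≠ 0 := by exact_mod_cast hn.ne'
  rw [sub_eq_add_neg, Complex.cpow_add _ _ hn0]
  congr 1
  · rw [Complex.ofReal_cpow (by positivity)]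
    push_cast
    rfl
  · rw [Complex.cpow_def_of_ne_zero hn0, ← Complex.natCast_log]
    congr 1
    push_cast
    ring

lemma term_norm (t u : ℝ) (n : ℕ) :
    ‖(vonMangoldt n : ℂ) * (n : ℂ) ^ (-(1 / 2 : ℂ) - Complex.I * t) *
      (Real.exp (-(u - Real.log n) ^ 2 / 2) : ℂ)‖ =
      vonMangoldt n * (n : ℝ) ^ (-(1 / 2 : ℝ)) * Real.exp (-(u - Real.log n) ^ 2 / 2) := by
  rcases Nat.eq_zero_or_pos n with h | h
  · subst h; simp
  · rw [cpow_split n h, norm_mul, norm_mul, norm_mul, norm_term, mul_one, Complex.norm_real,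
      Complex.norm_real, Complex.norm_real, Real.norm_eq_abs, Real.norm_eq_abs, Real.norm_eq_abs,
      abs_of_nonneg vonMangoldt_nonneg, abs_of_nonneg (by positivity), abs_of_nonneg (by positivity)]

lemma rpow_half_split (n : ℕ) (hn : 0 < n) :
    (n : ℝ) ^ (-(1 / 2 : ℝ)) = (n : ℝ) ^ (-(3 / 2 : ℝ)) * n := by
  have hn0 : (0 : ℝ) < n := by exact_mod_cast hn
  nth_rewrite 3 [← Real.rpow_one (n : ℝ)]
  rw [← Real.rpow_add hn0]
  norm_num

lemma term_summable (t u : ℝ) (hu0 : 0 ≤ u) :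
    Summable (fun n : ℕ => (vonMangoldt n : ℂ) * (n : ℂ) ^ (-(1 / 2 : ℂ) - Complex.I * t) *
      (Real.exp (-(u - Real.log n) ^ 2 / 2) : ℂ)) := by
  refine Summable.of_norm_bounded
    (g := fun n : ℕ => Real.exp (1 / 2 + u) * (vonMangoldt n * (n : ℝ) ^ (-(3 / 2 : ℝ))))
    (H370.lam_summable.mul_left _) fun n => ?_
  rw [term_norm]
  rcases Nat.eq_zero_or_pos n with h | h
  · subst h; simp
  · have h1 := tail_pt 1 n le_rfl h 1 u u le_rfl le_rfl
    simp only [one_pow, one_mul, sub_self, zero_mul, add_zero] at h1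
    rw [rpow_half_split n h]
    have h2 : 0 ≤ vonMangoldt n * (n : ℝ) ^ (-(3 / 2 : ℝ)) :=
      mul_nonneg vonMangoldt_nonneg (by positivity)
    calc vonMangoldt n * ((n : ℝ) ^ (-(3 / 2 : ℝ)) * n) * Real.exp (-(u - Real.log n) ^ 2 / 2)
        = (vonMangoldt n * (n : ℝ) ^ (-(3 / 2 : ℝ))) * (n * Real.exp (-(u - Real.log n) ^ 2 / 2)) := by
          ring
      _ ≤ (vonMangoldt n * (n : ℝ) ^ (-(3 / 2 : ℝ))) * Real.exp (1 / 2 + u) :=
          mul_le_mul_of_nonneg_left h1 h2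
      _ = _ := by ring

theorem prime_pt (α β : ℝ) (K N : ℕ) (hN : 1 ≤ N) (p U u : ℝ) (hp : 1 ≤ p) (hu0 : 0 ≤ u)
    (hu : u ≤ U) :
    ‖∑ k ∈ Icc 1 K, ∑' n : ℕ, (vonMangoldt n : ℂ) *
        (n : ℂ) ^ (-(1 / 2 : ℂ) - Complex.I * ((β + α * k : ℝ) : ℂ)) *
        (Real.exp (-(u - Real.log n) ^ 2 / 2) : ℂ)‖ ≤
      ∑ n ∈ Ico 1 N, vonMangoldt n * (n : ℝ) ^ (-(1 / 2 : ℝ)) * DD α K n *
        Real.exp (-(u - Real.log n) ^ 2 / 2) +
      K * Real.exp (p ^ 2 / 2 + p * U + (1 - p) * Real.log N) * SS := by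
  classical
  rw [← Summable.tsum_finsetSum (fun k _ => term_summable _ u hu0)]
  set B := Real.exp (p ^ 2 / 2 + p * U + (1 - p) * Real.log N) with hB
  have hB0 : 0 < B := Real.exp_pos _
  set f : ℕ → ℝ := fun n => if n ∈ Ico 1 N then vonMangoldt n * (n : ℝ) ^ (-(1 / 2 : ℝ)) * DD α K n *
        Real.exp (-(u - Real.log n) ^ 2 / 2) else 0 with hf
  have hfs : HasSum f (∑ n ∈ Ico 1 N, vonMangoldt n * (n : ℝ) ^ (-(1 / 2 : ℝ)) * DD α K n *
        Real.exp (-(u - Real.log n) ^ 2 / 2)) := by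
    have h1 : HasSum f (∑ n ∈ Ico 1 N, f n) :=
      hasSum_sum_of_ne_finset_zero fun n hn => by simp only [hf]; rw [if_neg hn]
    have h2 : ∑ n ∈ Ico 1 N, f n = ∑ n ∈ Ico 1 N, vonMangoldt n * (n : ℝ) ^ (-(1 / 2 : ℝ)) * DD α K n *
        Real.exp (-(u - Real.log n) ^ 2 / 2) :=
      Finset.sum_congr rfl fun n hn => by simp only [hf]; rw [if_pos hn]
    rwa [h2] at h1
  have hgs : HasSum (fun n : ℕ => K * B * (vonMangoldt n * (n : ℝ) ^ (-(3 / 2 : ℝ)))) (K * B * SS) :=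
    H370.lam_summable.hasSum.mul_left _
  refine tsum_of_norm_bounded (hfs.add hgs) fun n => ?_
  rcases Nat.eq_zero_or_pos n with h | h
  · subst h
    simp [hf]
  have hsum : ∑ k ∈ Icc 1 K, (vonMangoldt n : ℂ) *
        (n : ℂ) ^ (-(1 / 2 : ℂ) - Complex.I * ((β + α * k : ℝ) : ℂ)) *
        (Real.exp (-(u - Real.log n) ^ 2 / 2) : ℂ) =
      ((vonMangoldt n : ℂ) * (((n : ℝ) ^ (-(1 / 2 : ℝ)) : ℝ) : ℂ) *
        (Real.exp (-(u - Real.log n) ^ 2 / 2) : ℂ) *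
        Complex.exp (-(Complex.I * ((β * Real.log n : ℝ) : ℂ)))) *
        ∑ k ∈ Icc 1 K, Complex.exp (-(Complex.I * ((α * k * Real.log n : ℝ) : ℂ))) := by
    rw [Finset.mul_sum]
    refine Finset.sum_congr rfl fun k _ => ?_
    rw [cpow_split n h]
    have : Complex.exp (-(Complex.I * (((β + α * k) * Real.log n : ℝ) : ℂ))) =
        Complex.exp (-(Complex.I * ((β * Real.log n : ℝ) : ℂ))) *
        Complex.exp (-(Complex.I * ((α * k * Real.log n : ℝ) : ℂ))) := by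
      rw [← Complex.exp_add]; congr 1; push_cast; ring
    rw [this]
    ring
  rw [hsum, norm_mul, norm_mul, norm_mul, norm_mul, norm_term, mul_one, Complex.norm_real,
      Complex.norm_real, Complex.norm_real, Real.norm_eq_abs, Real.norm_eq_abs, Real.norm_eq_abs,
      abs_of_nonneg vonMangoldt_nonneg, abs_of_nonneg (by positivity), abs_of_nonneg (by positivity)]
  change vonMangoldt n * (n : ℝ) ^ (-(1 / 2 : ℝ)) * Real.exp (-(u - Real.log n) ^ 2 / 2) * DD α K n ≤ _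
  have hnn : 0 ≤ vonMangoldt n * (n : ℝ) ^ (-(3 / 2 : ℝ)) :=
    mul_nonneg vonMangoldt_nonneg (by positivity)
  by_cases hnN : n < N
  · have h1 : f n = vonMangoldt n * (n : ℝ) ^ (-(1 / 2 : ℝ)) * DD α K n *
        Real.exp (-(u - Real.log n) ^ 2 / 2) := by
      simp only [hf]; rw [if_pos (mem_Ico.mpr ⟨h, hnN⟩)]
    rw [h1]
    have h2 : 0 ≤ K * B * (vonMangoldt n * (n : ℝ) ^ (-(3 / 2 : ℝ))) :=
      mul_nonneg (by positivity) hnn
    nlinarith
  · have h1 : f n = 0 := by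
      simp only [hf]; rw [if_neg]; rw [mem_Ico]; omega
    rw [h1, zero_add]
    have h2 := tail_pt N n hN (by omega) p U u hp hu
    have h3 := DD_le_K α K n
    have h4 := DD_nonneg α K n
    rw [rpow_half_split n h]
    calc vonMangoldt n * ((n : ℝ) ^ (-(3 / 2 : ℝ)) * n) * Real.exp (-(u - Real.log n) ^ 2 / 2) * DD α K n
        = (vonMangoldt n * (n : ℝ) ^ (-(3 / 2 : ℝ))) *
          ((n * Real.exp (-(u - Real.log n) ^ 2 / 2)) * DD α K n) := by
          ring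
      _ ≤ (vonMangoldt n * (n : ℝ) ^ (-(3 / 2 : ℝ))) * (B * K) := by
          apply mul_le_mul_of_nonneg_left _ hnn
          exact mul_le_mul h2 h3 h4 hB0.le
      _ = _ := by ring

end Pool.Agent.H345R2.AP
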