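import Pool.Agent.H345R2.AP.Final

/-! Zeros of zeta in vertical arithmetic progressions: the uniform theorem. -/

set_option autoImplicit false

open Finset ArithmeticFunction Filter

namespace Pool.Agent.H345R2.AP

lemma mz_loc (t0 : ℝ) : ∀ᶠ t in nhds t0, mz t ≤ mz t0 := by
  have hne : (1 / 2 + Complex.I * t0 : ℂ) ≠ 1 := by
    intro h
    have := congrArg Complex.re h
    simp at this
  have han : AnalyticAt ℂ riemannZeta (1 / 2 + Complex.I * t0) := by
    have hd : DifferentiableOn ℂ riemannZeta {1}ᶜ := fun s hs =>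
      (differentiableAt_riemannZeta hs).differentiableWithinAt
    exact hd.analyticAt (isOpen_compl_singleton.mem_nhds hne)
  have hc : Tendsto (fun t : ℝ => (1 / 2 + Complex.I * t : ℂ)) (nhds t0)
      (nhds (1 / 2 + Complex.I * t0)) := by
    have : Continuous (fun t : ℝ => (1 / 2 + Complex.I * t : ℂ)) := by fun_prop
    exact this.tendsto t0
  rcases han.eventually_eq_zero_or_eventually_ne_zero with h | h
  · have h2 := hc.eventually h.eventually_nhds
    filter_upwards [h2] with t ht
    have : analyticOrderAt riemannZeta (1 / 2 + Complex.I * t) = ⊤ := by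
      rw [analyticOrderAt_eq_top]
      exact ht
    unfold mz analyticOrderNatAt
    rw [this]
    simp
  · rw [eventually_nhdsWithin_iff] at h
    have h2 := hc.eventually h
    filter_upwards [h2] with t ht
    by_cases htt : t = t0
    · rw [htt]
    · have h3 : riemannZeta (1 / 2 + Complex.I * t) ≠ 0 := by
        apply ht
        intro h4
        apply htt
        have h5 := congrArg Complex.im h4
        simpa using h5
      have : mz t = 0 := by
        unfold mz
        rw [analyticOrderNatAt, ENat.toNat_eq_zero]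
        left
        rw [analyticOrderAt_eq_zero]
        right; exact h3
      rw [this]; exact Nat.zero_le _

lemma mz_bdd (R : ℝ) : ∃ M : ℕ, ∀ t ∈ Set.Icc (0 : ℝ) R, mz t ≤ M := by
  refine isCompact_Icc.induction_on (p := fun S => ∃ M : ℕ, ∀ t ∈ S, mz t ≤ M) ?_ ?_ ?_ ?_
  · exact ⟨0, by simp⟩
  · rintro s t hst ⟨M, hM⟩
    exact ⟨M, fun x hx => hM x (hst hx)⟩
  · rintro s t ⟨M, hM⟩ ⟨M', hM'⟩
    refine ⟨max M M', fun x hx => ?_⟩
    rcases hx with hx | hx
    · exact (hM x hx).trans (le_max_left _ _)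
    · exact (hM' x hx).trans (le_max_right _ _)
  · intro x _
    refine ⟨{t | mz t ≤ mz x}, mem_nhdsWithin_of_mem_nhds (mz_loc x), mz x, fun t ht => ht⟩

lemma sum_split (f : ℕ → ℝ) (K' m : ℕ) :
    ∑ k ∈ Icc 1 (K' + m), f k = ∑ k ∈ Icc 1 K', f k + ∑ k ∈ Icc 1 m, f (K' + k) := by
  induction m with
  | zero => simp
  | succ m ih =>
    rw [← add_assoc, Finset.sum_Icc_succ_top (by omega), ih, Finset.sum_Icc_succ_top (by omega)]
    ring_nf

theorem uniform_ap (hRH : SP.RHs) (α : ℝ) (hα : 0 < α) (θ : ℝ) (hθ0 : 0 < θ) (hθ1 : θ ≤ 1)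
    (ε : ℝ) (hε : 0 < ε) :
    ∃ K0 : ℕ, ∀ β : ℝ, 0 ≤ β → ∀ K : ℕ, K0 ≤ K → β ^ θ ≤ K →
      ∑ k ∈ Icc 1 K, (mz (β + α * k) : ℝ) ≤ (1 / (2 * θ) + ε) * K := by
  set τ : ℝ := 1 / (1 / θ + ε / 2) with hτ
  have hτ0 : 0 < τ := by positivity
  have hτθ : τ < θ := by
    have h1 : τ < 1 / (1 / θ) := by
      rw [hτ]
      apply one_div_lt_one_div_of_lt (by positivity)
      linarith
    rwa [one_div_one_div] at h1
  have hτ1 : τ < 1 := lt_of_lt_of_le hτθ hθ1
  have hτi : 1 / (2 * τ) = 1 / (2 * θ) + ε / 4 := by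
    rw [hτ]; field_simp; ring
  obtain ⟨H0', hH0'⟩ := short_ap hRH α hα τ hτ0 hτ1.le (ε / 4) (by positivity)
  set H0 : ℝ := max H0' 1 with hH0def
  have hH01 : 1 ≤ H0 := le_max_right _ _
  have hH0 : ∀ β : ℝ, H0 ≤ β → ∀ K : ℕ, β ^ τ ≤ K → α * K ≤ β / 2 →
      ∑ k ∈ Icc 1 K, (mz (β + α * k) : ℝ) ≤ (1 / (2 * τ) + ε / 4) * K :=
    fun β hβ => hH0' β ((le_max_left _ _).trans hβ)
  rw [hτi] at hH0
  set c : ℝ := 1 / (2 * θ) + ε / 4 + ε / 4 with hc
  have hc0 : 0 < c := by positivity
  have hnat : Tendsto (fun K : ℕ => (K : ℝ)) atTop atTop := tendsto_natCast_atTop_atTop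
  obtain ⟨K1, hK1⟩ := eventually_atTop.mp ((ev_block τ hτ0 hτ1 (3 * α) (by positivity) 0).and
    ((hnat.eventually_ge_atTop (2 * H0 / α)).and
      ((hnat.eventually_ge_atTop (2 * H0 ^ τ)).and (hnat.eventually_ge_atTop 4))))
  obtain ⟨M1, hM1⟩ := mz_bdd (max H0 (2 * α * K1) + α * K1)
  set M : ℝ := K1 * M1 with hM
  have hM0 : 0 ≤ M := by positivity
  have hind : ∀ K : ℕ, ∀ β : ℝ, 0 ≤ β → β ^ τ ≤ K →
      ∑ k ∈ Icc 1 K, (mz (β + α * k) : ℝ) ≤ c * K + M := by
    intro K
    induction K using Nat.strong_induction_on with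
    | _ K ih =>
      intro β hβ hβK
      have hcK : 0 ≤ c * K := by positivity
      by_cases hA : H0 ≤ β ∧ α * K ≤ β / 2
      · have := hH0 β hA.1 K hβK hA.2
        linarith
      by_cases hKK : K ≤ K1
      · -- small K
        have hKK' : (K : ℝ) ≤ K1 := by exact_mod_cast hKK
        have hβb : β ≤ max H0 (2 * α * K1) := by
          rcases lt_or_ge β H0 with h | h
          · exact h.le.trans (le_max_left _ _)
          · have h2 : ¬ α * K ≤ β / 2 := fun h3 => hA ⟨h, h3⟩
            push Not at h2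
            have h3 : α * K ≤ α * K1 := mul_le_mul_of_nonneg_left hKK' hα.le
            refine le_trans ?_ (le_max_right _ _)
            linarith
        have h1 : ∀ k ∈ Icc 1 K, (mz (β + α * k) : ℝ) ≤ M1 := by
          intro k hk
          obtain ⟨hk1, hk2⟩ := mem_Icc.mp hk
          have hk3 : (k : ℝ) ≤ K1 := le_trans (by exact_mod_cast hk2) hKK'
          have hk4 : α * k ≤ α * K1 := mul_le_mul_of_nonneg_left hk3 hα.le
          have := hM1 (β + α * k) ⟨by positivity, by linarith⟩
          exact_mod_cast this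
        refine (Finset.sum_le_sum h1).trans ?_
        rw [Finset.sum_const, Nat.card_Icc, nsmul_eq_mul]
        have h2 : ((K + 1 - 1 : ℕ) : ℝ) * M1 ≤ K1 * M1 := by
          apply mul_le_mul_of_nonneg_right _ (by positivity)
          simpa using hKK'
        linarith
      · obtain ⟨e1, e2, e3, e4⟩ := hK1 K (by omega)
        have hK4 : 4 ≤ K := by exact_mod_cast e4
        have hβ3 : β ≤ 2 * α * K := by
          rcases lt_or_ge β H0 with h | h
          · rw [div_le_iff₀ hα] at e2
            nlinarith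
          · have h2 : ¬ α * K ≤ β / 2 := fun h3 => hA ⟨h, h3⟩
            push Not at h2
            linarith
        set m : ℕ := K / 4 with hm
        set K' : ℕ := K - m with hK'
        have hKeq : K = K' + m := by omega
        have hlt : K' < K := by omega
        have hmK' : m ≤ K' := by omega
        have hm4 : (m : ℝ) ≤ K / 4 := by
          have : 4 * m ≤ K := by omega
          have h' : (4 : ℝ) * m ≤ K := by exact_mod_cast this
          linarith
        have hK'r : (K' : ℝ) = K - m := by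
          have : (K : ℝ) = K' + m := by exact_mod_cast hKeq
          linarith
        have hm0 : (0 : ℝ) ≤ m := by positivity
        have e1' : (3 * α * K) ^ τ ≤ (m : ℝ) := by
          simpa using e1
        have hαm : α * m ≤ α * K / 4 := by
          have := mul_le_mul_of_nonneg_left hm4 hα.le
          linarith
        have hαm0 : 0 ≤ α * m := by positivity
        have hαK' : α * K' = α * K - α * m := by rw [hK'r]; ring
        have hβ'3 : β + α * K' ≤ 3 * α * K := by rw [hαK']; linarith
        have h1 := ih K' hlt β hβ (by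
          have g1 : β ^ τ ≤ (3 * α * K) ^ τ := by
            apply Real.rpow_le_rpow hβ _ hτ0.le
            have : 0 ≤ α * K := by positivity
            linarith
          have g2 : (m : ℝ) ≤ K' := by exact_mod_cast hmK'
          linarith)
        have h2 := hH0 (β + α * K') (by
          rw [div_le_iff₀ hα] at e2
          rw [hαK']; nlinarith) m (by
          refine le_trans (Real.rpow_le_rpow (by positivity) hβ'3 hτ0.le) e1')
          (by rw [hαK']; linarith)
        rw [hKeq, sum_split]
        have h3 : ∑ k ∈ Icc 1 m, (mz (β + α * ((K' + k : ℕ) : ℝ)) : ℝ) =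
            ∑ k ∈ Icc 1 m, (mz (β + α * K' + α * k) : ℝ) := by
          refine Finset.sum_congr rfl fun k _ => ?_
          congr 2
          push_cast; ring
        rw [h3]
        push_cast
        have h4 : (1 / (2 * θ) + ε / 4 + ε / 4) * (m : ℝ) = c * m := by rw [hc]
        have h5 : c * ((K' : ℝ) + m) = c * K' + c * m := by ring
        linarith
  obtain ⟨K2, hK2⟩ := eventually_atTop.mp ((hnat.eventually_ge_atTop (2 * M / ε)).and
    (hnat.eventually_ge_atTop 1))
  refine ⟨K2, fun β hβ K hK hβK => ?_⟩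
  obtain ⟨h2, h2'⟩ := hK2 K hK
  have hβτ : β ^ τ ≤ K := by
    rcases le_total β 1 with h | h
    · exact (Real.rpow_le_one hβ h hτ0.le).trans h2'
    · exact (Real.rpow_le_rpow_of_exponent_le h hτθ.le).trans hβK
  have h1 := hind K β hβ hβτ
  rw [div_le_iff₀ hε] at h2
  have h3 : c = 1 / (2 * θ) + ε / 2 := by rw [hc]; ring
  rw [h3] at h1
  linarith

end Pool.Agent.H345R2.AP
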